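import Pool.Agent.Helper91.KZ.StL

/-!
# MP_1d885e_al: (TL2) rational function fields
-/

namespace Pool.Agent.Helper8.KZ

open Pool.Agent.Helper91.KZ Polynomial

universe u

/-- `SC` for arbitrary finite index types -/
theorem sc_fintype {K : Type u} [Field K] {i : ℕ} (h : SC i K) {ι κ : Type*} [Fintype ι]
    [Fintype κ] {d : ℕ} (hd : 0 < d) (hc : Fintype.card ι * d ^ i < Fintype.card κ)
    (f : ι → MvPolynomial κ K) (hf : ∀ k, (f k).IsHomogeneous d) :
    ∃ v : κ → K, v ≠ 0 ∧ ∀ k, MvPolynomial.eval v (f k) = 0 := by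
  classical
  let e := Fintype.equivFin κ
  let e' := Fintype.equivFin ι
  obtain ⟨v, hv, h0⟩ := h (Fintype.card ι) (Fintype.card κ) d hd hc
    (fun k => MvPolynomial.rename e (f (e'.symm k)))
    (fun k => (hf _).rename_isHomogeneous)
  refine ⟨v ∘ e, ?_, fun k => ?_⟩
  · intro h1
    apply hv
    funext j
    have := congrFun h1 (e.symm j)
    simpa using this
  · have := h0 (e' k)
    simpa [MvPolynomial.eval_rename] using this

/-- all coefficients are homogeneous of degree `e` -/
def HD {K : Type u} [Field K] {J : Type} (e : ℕ) (p : (MvPolynomial J K)[X]) : Prop :=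
  ∀ s, (p.coeff s).IsHomogeneous e

theorem HD_mul {K : Type u} [Field K] {J : Type} {e e' : ℕ} {p q : (MvPolynomial J K)[X]}
    (hp : HD e p) (hq : HD e' q) : HD (e + e') (p * q) := by
  intro s
  rw [Polynomial.coeff_mul]
  exact MvPolynomial.IsHomogeneous.sum _ _ _ fun x _ => (hp _).mul (hq _)

theorem HD_one {K : Type u} [Field K] {J : Type} : HD 0 (1 : (MvPolynomial J K)[X]) := by
  intro s
  rw [Polynomial.coeff_one]
  split_ifs
  · exact MvPolynomial.isHomogeneous_one _ _
  · exact MvPolynomial.isHomogeneous_zero _ _ _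

theorem HD_pow {K : Type u} [Field K] {J : Type} {e : ℕ} {p : (MvPolynomial J K)[X]}
    (hp : HD e p) (k : ℕ) : HD (e * k) (p ^ k) := by
  induction k with
  | zero => simpa using HD_one
  | succ k ih =>
    rw [pow_succ, Nat.mul_succ]
    exact HD_mul ih hp

theorem HD_sum {K : Type u} [Field K] {J : Type} {α : Type*} {e : ℕ} (s : Finset α)
    (p : α → (MvPolynomial J K)[X]) (hp : ∀ a ∈ s, HD e (p a)) : HD e (∑ a ∈ s, p a) := by
  intro t
  rw [Polynomial.finsetSum_coeff]
  exact MvPolynomial.IsHomogeneous.sum _ _ _ fun x hx => hp x hx t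

theorem HD_prod {K : Type u} [Field K] {J : Type} {α : Type*} (s : Finset α)
    (e : α → ℕ) (p : α → (MvPolynomial J K)[X]) (hp : ∀ a ∈ s, HD (e a) (p a)) :
    HD (∑ a ∈ s, e a) (∏ a ∈ s, p a) := by
  classical
  induction s using Finset.induction_on with
  | empty => simpa using HD_one
  | insert a s ha ih =>
    rw [Finset.sum_insert ha, Finset.prod_insert ha]
    exact HD_mul (hp a (Finset.mem_insert_self _ _))
      (ih fun b hb => hp b (Finset.mem_insert_of_mem hb))

/-- the general point `x_j = ∑ u_{jl} t^l` -/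
noncomputable def gx (K : Type u) [Field K] (n N : ℕ) (j : Fin n) :
    (MvPolynomial (Fin n × Fin (N + 1)) K)[X] :=
  ∑ l : Fin (N + 1), C (MvPolynomial.X (j, l)) * X ^ (l : ℕ)

theorem HD_gx (K : Type u) [Field K] (n N : ℕ) (j : Fin n) : HD 1 (gx K n N j) := by
  apply HD_sum
  intro l _ s
  rw [Polynomial.coeff_C_mul, Polynomial.coeff_X_pow]
  split_ifs
  · simpa using MvPolynomial.isHomogeneous_X K (j, l)
  · simpa using MvPolynomial.isHomogeneous_zero _ _ _

theorem natDegree_gx (K : Type u) [Field K] (n N : ℕ) (j : Fin n) :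
    (gx K n N j).natDegree ≤ N := by
  apply Polynomial.natDegree_sum_le_of_forall_le
  intro l _
  refine (Polynomial.natDegree_C_mul_X_pow_le _ _).trans ?_
  exact Nat.lt_succ_iff.mp l.2

/-- the substitution -/
noncomputable def Th (K : Type u) [Field K] (n N : ℕ) :
    MvPolynomial (Fin n) K[X] →+* (MvPolynomial (Fin n × Fin (N + 1)) K)[X] :=
  MvPolynomial.eval₂Hom (Polynomial.mapRingHom MvPolynomial.C) (gx K n N)

theorem Th_eval (K : Type u) [Field K] (n N : ℕ) (u : Fin n × Fin (N + 1) → K)
    (g : MvPolynomial (Fin n) K[X]) :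
    (Th K n N g).map (MvPolynomial.eval u) =
      MvPolynomial.eval (fun j => ∑ l : Fin (N + 1), C (u (j, l)) * X ^ (l : ℕ)) g := by
  have h : (Polynomial.mapRingHom (MvPolynomial.eval u)).comp (Th K n N) =
      MvPolynomial.eval (fun j => ∑ l : Fin (N + 1), C (u (j, l)) * X ^ (l : ℕ)) := by
    apply MvPolynomial.ringHom_ext
    · intro c
      simp only [RingHom.comp_apply, Th, MvPolynomial.coe_eval₂Hom, MvPolynomial.eval₂_C,
        MvPolynomial.eval_C, Polynomial.coe_mapRingHom, Polynomial.map_map]
      have : (MvPolynomial.eval u).comp (MvPolynomial.C) = RingHom.id K := by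
        ext a
        simp
      rw [this, Polynomial.map_id]
    · intro j
      simp only [RingHom.comp_apply, Th, MvPolynomial.coe_eval₂Hom, MvPolynomial.eval₂_X,
        MvPolynomial.eval_X, Polynomial.coe_mapRingHom, gx]
      rw [Polynomial.map_sum]
      simp
  have := congrArg (fun φ => φ g) h
  simpa using this

theorem Th_monomial (K : Type u) [Field K] (n N : ℕ) (m : Fin n →₀ ℕ) (c : K[X]) :
    Th K n N (MvPolynomial.monomial m c) =
      c.map MvPolynomial.C * ∏ j : Fin n, gx K n N j ^ m j := by
  simp only [Th, MvPolynomial.coe_eval₂Hom, MvPolynomial.eval₂_monomial,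
    Polynomial.coe_mapRingHom]
  rw [Finsupp.prod_fintype]
  intro j
  simp

theorem HD_Th (K : Type u) [Field K] (n N : ℕ) (m : Fin n →₀ ℕ) (c : K[X]) :
    HD (∑ j, m j) (Th K n N (MvPolynomial.monomial m c)) := by
  rw [Th_monomial]
  have h1 : HD 0 (c.map (MvPolynomial.C : K →+* MvPolynomial (Fin n × Fin (N + 1)) K)) := by
    intro s
    rw [Polynomial.coeff_map]
    exact MvPolynomial.isHomogeneous_C _ _
  have h2 := HD_prod (Finset.univ : Finset (Fin n)) (fun j => 1 * m j)
    (fun j => gx K n N j ^ m j) (fun j _ => HD_pow (HD_gx K n N j) (m j))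
  have h3 := HD_mul h1 h2
  simpa using h3

theorem deg_Th (K : Type u) [Field K] (n N : ℕ) (m : Fin n →₀ ℕ) (c : K[X]) :
    (Th K n N (MvPolynomial.monomial m c)).natDegree ≤ c.natDegree + N * ∑ j, m j := by
  rw [Th_monomial]
  refine (Polynomial.natDegree_mul_le).trans ?_
  refine Nat.add_le_add (Polynomial.natDegree_map_le) ?_
  refine (Polynomial.natDegree_prod_le _ _).trans ?_
  rw [Finset.mul_sum]
  refine Finset.sum_le_sum fun j _ => ?_
  refine (Polynomial.natDegree_pow_le).trans ?_
  rw [Nat.mul_comm]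
  exact Nat.mul_le_mul_right _ (natDegree_gx K n N j)

/-- (TL2) rational function fields -/
theorem TL2 : ST_TL2.{u} := by
  classical
  intro K L _ _ _ _ i hSC r n d hd hn f hf
  -- common denominator
  let S : Finset L := Finset.univ.biUnion fun k => (f k).support.image fun m => (f k).coeff m
  obtain ⟨b, hb⟩ := IsLocalization.exist_integer_multiples_of_finset (nonZeroDivisors K[X]) S
  have hc : ∀ k m, ∃ c : K[X], algebraMap K[X] L c = algebraMap K[X] L (b : K[X]) * (f k).coeff m := by
    intro k m
    by_cases hm : m ∈ (f k).support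
    · obtain ⟨c, hc⟩ := hb ((f k).coeff m) (by
        simp only [S, Finset.mem_biUnion, Finset.mem_univ, true_and, Finset.mem_image]
        exact ⟨k, m, hm, rfl⟩)
      exact ⟨c, by rw [hc, Algebra.smul_def]⟩
    · refine ⟨0, ?_⟩
      rw [MvPolynomial.notMem_support_iff.mp hm]
      simp
  choose c hc using hc
  let h : ℕ := Finset.univ.sup fun k => (f k).support.sup fun m => (c k m).natDegree
  let N : ℕ := r * (h + 1) * d ^ i
  let g : Fin r → MvPolynomial (Fin n) K[X] := fun k =>
    ∑ m ∈ (f k).support, MvPolynomial.monomial m (c k m)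
  have hdeg : ∀ k, ∀ m ∈ (f k).support, ∑ j, m j = d := by
    intro k m hm
    have h1 := hf k (MvPolynomial.mem_support_iff.mp hm)
    rw [← h1, Finsupp.weight_apply, Finsupp.sum_fintype]
    · simp
    · simp
  have hHD : ∀ k, HD d (Th K n N (g k)) := by
    intro k
    simp only [g, map_sum]
    apply HD_sum
    intro m hm
    have := HD_Th K n N m (c k m)
    rwa [hdeg k m hm] at this
  have hND : ∀ k, (Th K n N (g k)).natDegree ≤ h + N * d := by
    intro k
    simp only [g, map_sum]
    apply Polynomial.natDegree_sum_le_of_forall_le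
    intro m hm
    refine (deg_Th K n N m (c k m)).trans ?_
    rw [hdeg k m hm]
    refine Nat.add_le_add_right ?_ _
    exact (Finset.le_sup (f := fun m => (c k m).natDegree) hm).trans
      (Finset.le_sup (f := fun k => (f k).support.sup fun m => (c k m).natDegree)
        (Finset.mem_univ k))
  have hcard : Fintype.card (Fin r × Fin (h + N * d + 1)) * d ^ i <
      Fintype.card (Fin n × Fin (N + 1)) := by
    simp only [Fintype.card_prod, Fintype.card_fin]
    have h1 : r * d ^ (i + 1) + 1 ≤ n := hn
    have h2 : (r * d ^ (i + 1) + 1) * N ≤ n * N := Nat.mul_le_mul_right _ h1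
    have h3 : N = r * (h + 1) * d ^ i := rfl
    have h4 : r * (h + N * d + 1) * d ^ i = r * (h + 1) * d ^ i + r * d ^ (i + 1) * N := by ring
    have h5 : 0 < n := by omega
    rw [h4, ← h3]
    have h6 : n * (N + 1) = n * N + n := by ring
    have h7 : (r * d ^ (i + 1) + 1) * N = r * d ^ (i + 1) * N + N := by ring
    omega
  obtain ⟨u, hu, hu0⟩ := sc_fintype hSC hd hcard
    (fun p : Fin r × Fin (h + N * d + 1) => (Th K n N (g p.1)).coeff (p.2 : ℕ))
    (fun p => hHD p.1 _)
  let x : Fin n → K[X] := fun j => ∑ l : Fin (N + 1), C (u (j, l)) * X ^ (l : ℕ)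
  have hx : ∀ j (l : Fin (N + 1)), (x j).coeff l = u (j, l) := by
    intro j l
    simp only [x, Polynomial.finsetSum_coeff, Polynomial.coeff_C_mul, Polynomial.coeff_X_pow]
    rw [Finset.sum_eq_single l]
    · simp
    · intro l' _ hl'
      have : (l : ℕ) ≠ (l' : ℕ) := fun e => hl' (Fin.ext e.symm)
      simp [this]
    · intro h'
      exact absurd (Finset.mem_univ _) h'
  have hg0 : ∀ k, MvPolynomial.eval x (g k) = 0 := by
    intro k
    have h1 := Th_eval K n N u (g k)
    rw [← h1]
    ext s
    rw [Polynomial.coeff_map, Polynomial.coeff_zero]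
    by_cases hs : s < h + N * d + 1
    · exact hu0 (k, ⟨s, hs⟩)
    · rw [Polynomial.coeff_eq_zero_of_natDegree_lt (by have := hND k; omega), map_zero]
  refine ⟨fun j => algebraMap K[X] L (x j), ?_, fun k => ?_⟩
  · intro h1
    apply hu
    funext p
    have h2 : algebraMap K[X] L (x p.1) = 0 := congrFun h1 p.1
    have h3 : x p.1 = 0 := by
      apply IsFractionRing.injective K[X] L
      rw [h2, map_zero]
    have h4 := hx p.1 p.2
    rw [h3, Polynomial.coeff_zero] at h4
    exact h4.symm
  · have h1 : algebraMap K[X] L (b : K[X]) * MvPolynomial.eval (fun j => algebraMap K[X] L (x j)) (f k)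
        = algebraMap K[X] L (MvPolynomial.eval x (g k)) := by
      rw [MvPolynomial.eval_eq']
      simp only [g, map_sum, MvPolynomial.eval_monomial, map_mul, hc]
      rw [Finset.mul_sum]
      refine Finset.sum_congr rfl fun m _ => ?_
      rw [Finsupp.prod_fintype _ _ (by simp), map_prod]
      simp only [map_pow]
      ring
    rw [hg0 k, map_zero] at h1
    have h2 : algebraMap K[X] L (b : K[X]) ≠ 0 := by
      intro h3
      have h4 : (b : K[X]) = 0 := by
        apply IsFractionRing.injective K[X] L
        rw [h3, map_zero]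
      exact nonZeroDivisors.ne_zero b.2 h4
    exact (mul_eq_zero.mp h1).resolve_left h2

end Pool.Agent.Helper8.KZ
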