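import Pool.Agent.Helper91.KZ.StM

/-!
# MP_1d885e_al: (TWF) composita with cyclic extensions of prime degree
-/

namespace Pool.Agent.Helper8.KZ

open Pool.Agent.Helper91.KZ Polynomial TensorProduct

universe u

/-- the norm of an element of a power of the base field -/
theorem norm_pi {W G : Type*} [Field W] [Fintype G] (v : G → W) :
    Algebra.norm W v = ∏ g, v g := by
  classical
  rw [Algebra.norm_eq_matrix_det (Pi.basisFun W G)]
  have : Algebra.leftMulMatrix (Pi.basisFun W G) v = Matrix.diagonal v := by
    ext i j
    rw [Algebra.leftMulMatrix_eq_repr_mul, Matrix.diagonal_apply]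
    by_cases h : i = j
    · subst h
      simp
    · simp [h]
  rw [this, Matrix.det_diagonal]

/-- composita of a Galois extension with a field -/
theorem comp_gal {E T W T' : Type*} [Field E] [Field T] [Algebra E T] [FiniteDimensional E T]
    [IsGalois E T] [Field W] [Algebra E W] [Field T'] [Algebra E T'] [Algebra T T']
    [Algebra W T'] [IsScalarTower E T T'] [IsScalarTower E W T']
    (hgen : Algebra.adjoin W (Set.range (algebraMap T T')) = ⊤) :
    IsGalois W T' ∧ FiniteDimensional W T' ∧ Module.finrank W T' ∣ Module.finrank E T := by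
  obtain ⟨f, hs, hf⟩ := IsGalois.is_separable_splitting_field E T
  have hmap : (f.map (algebraMap E W)).map (algebraMap W T') =
      (f.map (algebraMap E T)).map (algebraMap T T') := by
    rw [Polynomial.map_map, Polynomial.map_map, ← IsScalarTower.algebraMap_eq,
      ← IsScalarTower.algebraMap_eq]
  have hf0 : f ≠ 0 := hs.ne_zero
  have hfW : f.map (algebraMap E W) ≠ 0 := (Polynomial.map_ne_zero_iff
    (algebraMap E W).injective).mpr hf0
  have hsub : ∀ t : T, algebraMap T T' t ∈
      Algebra.adjoin W ((f.map (algebraMap E W)).rootSet T') := by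
    have h1 : ∀ t ∈ Algebra.adjoin E (f.rootSet T), algebraMap T T' t ∈
      Algebra.adjoin W ((f.map (algebraMap E W)).rootSet T') := by
      intro t ht
      induction ht using Algebra.adjoin_induction with
      | mem x hx =>
        apply Algebra.subset_adjoin
        rw [Polynomial.mem_rootSet] at hx ⊢
        refine ⟨hfW, ?_⟩
        rw [Polynomial.aeval_map_algebraMap, Polynomial.aeval_algebraMap_apply, hx.2, map_zero]
      | algebraMap r =>
        rw [← IsScalarTower.algebraMap_apply, IsScalarTower.algebraMap_apply E W T']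
        exact Subalgebra.algebraMap_mem _ _
      | add x y _ _ hx hy =>
        rw [map_add]
        exact Subalgebra.add_mem _ hx hy
      | mul x y _ _ hx hy =>
        rw [map_mul]
        exact Subalgebra.mul_mem _ hx hy
    intro t
    apply h1
    rw [hf.adjoin_rootSet']
    exact Algebra.mem_top
  have hsp : (f.map (algebraMap E W)).IsSplittingField W T' := by
    constructor
    · rw [hmap]
      exact hf.splits'.map _
    · rw [eq_top_iff, ← hgen]
      apply Algebra.adjoin_le
      rintro _ ⟨t, rfl⟩
      exact hsub t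
  have hgal : IsGalois W T' :=
    IsGalois.of_separable_splitting_field (p := f.map (algebraMap E W)) hs.map
  have hfd : FiniteDimensional W T' :=
    Polynomial.IsSplittingField.finiteDimensional T' (f.map (algebraMap E W))
  refine ⟨hgal, hfd, ?_⟩
  rw [← IsGalois.card_aut_eq_finrank W T', ← IsGalois.card_aut_eq_finrank E T]
  let φ : (T' ≃ₐ[W] T') →* (T ≃ₐ[E] T) :=
    (AlgEquiv.restrictNormalHom T).comp (AlgEquiv.restrictScalarsHom E)
  apply Subgroup.card_dvd_of_injective φ
  rw [injective_iff_map_eq_one]
  intro g hg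
  have h1 : ∀ t : T, g (algebraMap T T' t) = algebraMap T T' t := by
    intro t
    have h2 := AlgEquiv.restrictNormal_commutes (AlgEquiv.restrictScalars E g) T t
    have h3 : (AlgEquiv.restrictScalars E g).restrictNormal T = 1 := hg
    rw [h3] at h2
    exact h2.symm
  have h4 : (g : T' →ₐ[W] T') = AlgHom.id W T' := by
    apply AlgHom.ext_of_adjoin_eq_top hgen
    rintro _ ⟨t, rfl⟩
    exact h1 t
  ext x
  exact DFunLike.congr_fun h4 x

/-- (TWF) composita with cyclic extensions of degree `p` -/
theorem TWF : ST_TWF.{u} := by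
  classical
  intro E T W _ _ _ _ _ _ _ p σ hp hdeg hσ
  refine ⟨fun ⟨j⟩ => ?_, fun hemp => ?_⟩
  · -- the split case
    let G := T ≃ₐ[E] T
    let Φ : W ⊗[E] T →ₐ[W] (G → W) :=
      Algebra.TensorProduct.lift (Algebra.ofId W (G → W))
        (AlgHom.pi fun g : G => j.comp (g : T →ₐ[E] T)) (fun _ _ => Commute.all _ _)
    have hΦ : ∀ (w : W) (t : T) (g : G), Φ (w ⊗ₜ t) g = w * j (g t) := by
      intro w t g
      simp only [Φ, Algebra.TensorProduct.lift_tmul]
      rfl
    have hcard : Fintype.card G = p := by
      rw [← hdeg, ← IsGalois.card_aut_eq_finrank E T, Nat.card_eq_fintype_card]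
    have hsurj : Function.Surjective Φ := by
      have h1 : LinearMap.range Φ.toLinearMap = ⊤ := by
        by_contra hne
        obtain ⟨c, hc0, hc⟩ := Submodule.exists_le_ker_of_lt_top _ (lt_top_iff_ne_top.mpr hne)
        have h2 : ∀ t : T, ∑ g : G, c (Pi.single g 1) * j (g t) = 0 := by
          intro t
          have h3 : c (Φ (1 ⊗ₜ t)) = 0 :=
            LinearMap.mem_ker.mp (hc (LinearMap.mem_range_self Φ.toLinearMap (1 ⊗ₜ t)))
          rw [LinearMap.pi_apply_eq_sum_univ c] at h3
          rw [← h3]
          refine Finset.sum_congr rfl fun g _ => ?_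
          rw [hΦ, one_mul, smul_eq_mul, mul_comm]
          congr 2
          funext g'
          simp [Pi.single_apply, eq_comm]
        have hli := (linearIndependent_monoidHom T W).comp
          (fun g : G => ((j.comp (g : T →ₐ[E] T) : T →ₐ[E] W) : T →* W)) (by
            intro g g' hgg
            ext t
            have := DFunLike.congr_fun hgg t
            exact j.toRingHom.injective this)
        have h4 := Fintype.linearIndependent_iff.mp hli (fun g => c (Pi.single g 1)) (by
          funext t
          simp only [Finset.sum_apply, Pi.smul_apply, smul_eq_mul, Pi.zero_apply,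
            Function.comp_apply]
          exact h2 t)
        apply hc0
        apply LinearMap.pi_ext'
        intro g
        apply LinearMap.ext_ring
        simpa using h4 g
      intro v
      have : v ∈ LinearMap.range Φ.toLinearMap := by rw [h1]; trivial
      exact this
    have hfr : Module.finrank W (W ⊗[E] T) = Module.finrank W (G → W) := by
      rw [Module.finrank_baseChange, Module.finrank_fintype_fun_eq_card, hcard, hdeg]
    have hinj : Function.Injective Φ :=
      (LinearMap.injective_iff_surjective_of_finrank_eq_finrank (f := Φ.toLinearMap) hfr).mpr hsurj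
    let e : W ⊗[E] T ≃ₐ[W] (G → W) := AlgEquiv.ofBijective Φ ⟨hinj, hsurj⟩
    refine ⟨fun w => ⟨e.symm (Function.update (fun _ => 1) 1 w), ?_⟩,
      e.symm (Pi.single 1 1), e.symm (Pi.single σ 1), ?_, ?_, ?_⟩
    · rw [← Algebra.norm_eq_of_algEquiv e, AlgEquiv.apply_symm_apply, norm_pi,
        Finset.prod_update_of_mem (Finset.mem_univ _)]
      simp
    · rw [Ne, EmbeddingLike.map_eq_zero_iff]
      intro h
      have := congrFun h 1
      simp at this
    · rw [Ne, EmbeddingLike.map_eq_zero_iff]
      intro h
      have := congrFun h σ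
      simp at this
    · have h0 : (Pi.single 1 1 : G → W) * Pi.single σ 1 = 0 := by
        funext g
        by_cases hg : g = 1
        · subst hg
          simp [hσ.symm]
        · simp [hg]
      rw [← map_mul, h0, map_zero]
  · -- the field case
    obtain ⟨m, hm⟩ := Ideal.exists_maximal (W ⊗[E] T)
    let _ : Field ((W ⊗[E] T) ⧸ m) := Ideal.Quotient.field m
    let _ : Algebra T ((W ⊗[E] T) ⧸ m) :=
      ((Ideal.Quotient.mk m).comp
        (Algebra.TensorProduct.includeRight : T →ₐ[E] W ⊗[E] T).toRingHom).toAlgebra
    have hT : ∀ t : T, algebraMap T ((W ⊗[E] T) ⧸ m) t = Ideal.Quotient.mk m (1 ⊗ₜ t) :=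
      fun _ => rfl
    have : IsScalarTower E T ((W ⊗[E] T) ⧸ m) := by
      apply IsScalarTower.of_algebraMap_eq
      intro x
      rw [hT]
      have h1 := (Algebra.TensorProduct.includeRight : T →ₐ[E] W ⊗[E] T).commutes x
      rw [Algebra.TensorProduct.includeRight_apply] at h1
      rw [h1]
      rfl
    have hgen : Algebra.adjoin W (Set.range (algebraMap T ((W ⊗[E] T) ⧸ m))) = ⊤ := by
      rw [eq_top_iff]
      rintro x -
      obtain ⟨y, rfl⟩ := Ideal.Quotient.mk_surjective x
      induction y using TensorProduct.induction_on with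
      | zero =>
        rw [map_zero]
        exact Subalgebra.zero_mem _
      | tmul w t =>
        have h1 : Ideal.Quotient.mk m (w ⊗ₜ[E] t) = w • algebraMap T ((W ⊗[E] T) ⧸ m) t := by
          rw [hT]
          have h2 : (w ⊗ₜ[E] t : W ⊗[E] T) = w • (1 ⊗ₜ[E] t) := by
            rw [TensorProduct.smul_tmul', smul_eq_mul, mul_one]
          rw [h2]
          rfl
        rw [h1]
        exact Subalgebra.smul_mem _ (Algebra.subset_adjoin (Set.mem_range_self t)) w
      | add x y hx hy =>
        rw [map_add]
        exact Subalgebra.add_mem _ hx hy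
    obtain ⟨hgal, hfd, hdvd⟩ := comp_gal (E := E) hgen
    rw [hdeg] at hdvd
    rcases (Nat.dvd_prime hp).mp hdvd with h1 | h1
    · exfalso
      have h2 := (finrank_eq_one_iff_of_nonzero' (1 : (W ⊗[E] T) ⧸ m) one_ne_zero).mp h1
      have h3 : Function.Bijective (Algebra.ofId W ((W ⊗[E] T) ⧸ m)) := by
        refine ⟨(algebraMap W ((W ⊗[E] T) ⧸ m)).injective, fun x => ?_⟩
        obtain ⟨c, hc⟩ := h2 x
        exact ⟨c, by rw [Algebra.ofId_apply, Algebra.algebraMap_eq_smul_one, hc]⟩
      let e := AlgEquiv.ofBijective (Algebra.ofId W ((W ⊗[E] T) ⧸ m)) h3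
      exact hemp.false (((e.symm : ((W ⊗[E] T) ⧸ m) →ₐ[W] W).restrictScalars E).comp
        (IsScalarTower.toAlgHom E T ((W ⊗[E] T) ⧸ m)))
    · have hfr : Module.finrank W (W ⊗[E] T) = Module.finrank W ((W ⊗[E] T) ⧸ m) := by
        rw [Module.finrank_baseChange, hdeg, h1]
      have hs : Function.Surjective (Ideal.Quotient.mkₐ W m) := Ideal.Quotient.mkₐ_surjective W m
      have hi : Function.Injective (Ideal.Quotient.mkₐ W m) :=
        (LinearMap.injective_iff_surjective_of_finrank_eq_finrank
          (f := (Ideal.Quotient.mkₐ W m).toLinearMap) hfr).mpr hs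
      let e : W ⊗[E] T ≃ₐ[W] ((W ⊗[E] T) ⧸ m) :=
        AlgEquiv.ofBijective (Ideal.Quotient.mkₐ W m) ⟨hi, hs⟩
      let σ' : ((W ⊗[E] T) ⧸ m) ≃ₐ[W] ((W ⊗[E] T) ⧸ m) :=
        (e.symm.trans (Algebra.TensorProduct.congr AlgEquiv.refl σ)).trans e
      have hcmp : ∀ t, σ' (e (1 ⊗ₜ t)) = e (1 ⊗ₜ σ t) := by
        intro t
        simp [σ']
      refine ⟨(W ⊗[E] T) ⧸ m, inferInstance, inferInstance, σ', e, hfd, hgal, h1, ?_, hcmp⟩
      intro h
      apply hσ
      ext t
      have h2 := hcmp t
      rw [h, AlgEquiv.one_apply] at h2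
      have h3 := e.injective h2
      have h4 := Algebra.TensorProduct.includeRight_injective (R := E) (A := W) (B := T)
        (algebraMap E W).injective h3
      simpa using h4.symm

end Pool.Agent.Helper8.KZ
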